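import Pool.Agent.Q239.K9.Check

set_option autoImplicit false

namespace Pool.Agent.Q239.K9

lemma anti_iter {σ : Fin 9 → Fin 9} (hinj : Function.Injective σ) {h : Fin 9 → Fin 9 → Bool}
    (hanti : ∀ a b, a ≠ b → h (σ a) (σ b) = !h a b) (a b : Fin 9) (hab : a ≠ b) (k : ℕ) :
    h (σ^[k] a) (σ^[k] b) = (h a b == (k % 2 == 0)) := by
  induction k with
  | zero => simp
  | succ k ih =>
    rw [Function.iterate_succ_apply', Function.iterate_succ_apply', hanti _ _ (fun hh => hab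
      ((hinj.iterate k) hh)), ih]
    rcases Nat.mod_two_eq_zero_or_one k with hk | hk
    · have : (k + 1) % 2 = 1 := by omega
      rw [hk, this]; cases h a b <;> rfl
    · have : (k + 1) % 2 = 0 := by omega
      rw [hk, this]; cases h a b <;> rfl

/-- A graph with antimorphism `σ` cannot have van Kampen labels together with its complement,
provided the tables are right. -/
theorem anti_contra (nb : ℕ) (T : List (List ℕ)) (C : List (ℕ × ℕ × List ℕ))
    (hok : C.all (okCert T) = true)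
    (hcov : (List.range (2 ^ nb)).all (covB C (2 ^ nb - 1)) = true)
    (σ : Fin 9 → Fin 9) (hinj : Function.Injective σ) (r : Fin nb → Fin 9 × Fin 9)
    (hr : ∀ j, (r j).1 ≠ (r j).2)
    (hT : ∀ a b : Fin 9, a < b → ∃ j : Fin nb, ∃ k : Fin 8, tb T a b / 2 = j ∧
      tb T a b % 2 = k % 2 ∧
      ((σ^[(k : ℕ)] (r j).1 = a ∧ σ^[(k : ℕ)] (r j).2 = b) ∨
       (σ^[(k : ℕ)] (r j).1 = b ∧ σ^[(k : ℕ)] (r j).2 = a)))
    (h : Fin 9 → Fin 9 → Bool) (hsym : ∀ a b, h a b = h b a)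
    (hanti : ∀ a b, a ≠ b → h (σ a) (σ b) = !h a b)
    (h1 : Lab h) (h2 : Lab (fun a b => !h a b)) : False := by
  set B : ℕ := Nat.ofBits (fun j : Fin nb => h (r j).1 (r j).2) with hB
  have hBlt : B < 2 ^ nb := Nat.ofBits_lt_two_pow _
  have hbit : ∀ j : Fin nb, B.testBit j = h (r j).1 (r j).2 := fun j => by
    rw [hB, Nat.testBit_ofBits_lt _ _ j.2]
  have hadj : ∀ a b : Fin 9, a < b →
      h a b = (B.testBit (tb T a b / 2) == (tb T a b % 2 == 0)) := by
    intro a b hab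
    obtain ⟨j, k, e1, e2, e3⟩ := hT a b hab
    rw [e1, e2, hbit, ← anti_iter hinj hanti _ _ (hr j)]
    rcases e3 with ⟨e3, e4⟩ | ⟨e3, e4⟩
    · rw [e3, e4]
    · rw [e3, e4, hsym]
  have hadj' : ∀ a b : Fin 9, a < b →
      (!h a b) = ((2 ^ nb - 1 - B).testBit (tb T a b / 2) == (tb T a b % 2 == 0)) := by
    intro a b hab
    obtain ⟨j, k, e1, -, -⟩ := hT a b hab
    have : 2 ^ nb - 1 - B = 2 ^ nb - (B + 1) := by omega
    rw [this, Nat.testBit_two_pow_sub_succ hBlt, hadj a b hab]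
    have hj : tb T a b / 2 < nb := by rw [e1]; exact j.2
    simp only [hj, decide_true, Bool.true_and]
    cases B.testBit (tb T a b / 2) <;> cases (tb T a b % 2 == 0) <;> rfl
  have hc := List.all_eq_true.mp hcov B (List.mem_range.mpr hBlt)
  obtain ⟨x, hx, hx'⟩ := List.any_eq_true.mp hc
  have hxo := List.all_eq_true.mp hok x hx
  obtain ⟨care, val, L⟩ := x
  rcases (Bool.or_eq_true _ _).mp hx' with hx' | hx'
  · exact cert_contra hxo h B (Nat.eq_of_beq_eq_true hx') hadj h1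
  · exact cert_contra hxo _ (2 ^ nb - 1 - B) (Nat.eq_of_beq_eq_true hx') hadj' h2

def s8 : Fin 9 → Fin 9 := ![1, 2, 3, 4, 5, 6, 7, 0, 8]
def s44 : Fin 9 → Fin 9 := ![1, 2, 3, 0, 5, 6, 7, 4, 8]

def r8 : Fin 5 → Fin 9 × Fin 9 := ![(0, 1), (0, 2), (0, 3), (0, 4), (0, 8)]
def r44 : Fin 10 → Fin 9 × Fin 9 :=
  ![(0, 1), (0, 2), (0, 4), (0, 5), (0, 6), (0, 7), (0, 8), (4, 5), (4, 6), (4, 8)]

theorem anti8 (h : Fin 9 → Fin 9 → Bool) (hsym : ∀ a b, h a b = h b a)
    (hanti : ∀ a b, a ≠ b → h (s8 a) (s8 b) = !h a b)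
    (h1 : Lab h) (h2 : Lab (fun a b => !h a b)) : False :=
  anti_contra 5 tab8 cert8 ok8 cov8 s8 (by decide) r8 (by decide) (by decide +kernel) h hsym hanti
    h1 h2

theorem anti44 (h : Fin 9 → Fin 9 → Bool) (hsym : ∀ a b, h a b = h b a)
    (hanti : ∀ a b, a ≠ b → h (s44 a) (s44 b) = !h a b)
    (h1 : Lab h) (h2 : Lab (fun a b => !h a b)) : False :=
  anti_contra 10 tab44 cert44 ok44 cov44 s44 (by decide) r44 (by decide) (by decide +kernel) h hsym
    hanti h1 h2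

end Pool.Agent.Q239.K9
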