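import Pool.Agent.Q239.K9.Comb

set_option autoImplicit false

namespace Pool.Agent.Q239.K9

theorem ok8 : cert8.all (okCert tab8) = true := by decide +kernel

theorem ok44 : cert44.all (okCert tab44) = true := by decide +kernel

/-- the bit vector `B` or its complement is covered by a certificate -/
def covB (C : List (ℕ × ℕ × List ℕ)) (F B : ℕ) : Bool :=
  C.any fun x => Nat.beq (B &&& x.1) x.2.1 || Nat.beq ((F - B) &&& x.1) x.2.1

theorem cov8 : (List.range 32).all (covB cert8 31) = true := by decide +kernel

theorem cov44 : (List.range 1024).all (covB cert44 1023) = true := by decide +kernel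

end Pool.Agent.Q239.K9
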