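import Pool.Agent.Q239.K9.Data
import Pool.Agent.Helper770.VanKampen

set_option autoImplicit false

namespace Pool.Agent.Q239.K9

open Pool.Agent.Helper770.VanKampen

def forced (T : List (List ℕ)) (care val a b : ℕ) : Bool :=
  care.testBit (tb T a b / 2) && (val.testBit (tb T a b / 2) == (tb T a b % 2 == 0))

def qa (n : ℕ) : ℕ := n / 729
def qb (n : ℕ) : ℕ := n / 81 % 9
def qc (n : ℕ) : ℕ := n / 9 % 9
def qd (n : ℕ) : ℕ := n % 9

def okQuad (T : List (List ℕ)) (care val n : ℕ) : Bool :=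
  (Nat.blt (qa n) (qb n)) && (Nat.blt (qc n) (qd n)) && !(Nat.beq (qa n) (qc n)) &&
  !(Nat.beq (qa n) (qd n)) && !(Nat.beq (qb n) (qc n)) && !(Nat.beq (qb n) (qd n)) &&
  forced T care val (qa n) (qb n) && forced T care val (qc n) (qd n)

def msk (n : ℕ) : ℕ :=
  2 ^ (81 * qa n + 9 * qb n + qc n) ^^^ (2 ^ (81 * qa n + 9 * qb n + qd n) ^^^
    (2 ^ (81 * qc n + 9 * qd n + qa n) ^^^ 2 ^ (81 * qc n + 9 * qd n + qb n)))

def bet (n : ℕ) : Bool :=
  xor (Nat.blt (qa n) (qc n) && Nat.blt (qc n) (qb n)) (Nat.blt (qa n) (qd n) && Nat.blt (qd n) (qb n))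

def okCert (T : List (List ℕ)) (x : ℕ × ℕ × List ℕ) : Bool :=
  x.2.2.all (okQuad T x.1 x.2.1) && (Nat.beq (x.2.2.foldr (fun n y => msk n ^^^ y) 0) 0) &&
    (x.2.2.foldr (fun n y => xor (bet n) y) false)

/-- existence of van Kampen labels for the graph with adjacency function `h` -/
def Lab (h : Fin 9 → Fin 9 → Bool) : Prop :=
  ∃ m : Fin 9 → Fin 9 → Fin 9 → ZMod 2, ∀ a b c d, a < b → c < d → h a b = true → h c d = true →
      a ≠ c → a ≠ d → b ≠ c → b ≠ d →
      beta a b c d = m a b c + m a b d + m c d a + m c d b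

/-- linear functional on bit masks -/
noncomputable def phi (M : ℕ → ZMod 2) (x : ℕ) : ZMod 2 :=
  ∑ i ∈ Finset.range 729, if x.testBit i then M i else 0

lemma phi_zero (M : ℕ → ZMod 2) : phi M 0 = 0 := by simp [phi]

lemma phi_xor (M : ℕ → ZMod 2) (x y : ℕ) : phi M (x ^^^ y) = phi M x + phi M y := by
  unfold phi
  rw [← Finset.sum_add_distrib]
  refine Finset.sum_congr rfl fun i _ => ?_
  rw [Nat.testBit_xor]
  cases x.testBit i <;> cases y.testBit i <;> simp [CharTwo.add_self_eq_zero]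

lemma phi_pow (M : ℕ → ZMod 2) (k : ℕ) (hk : k < 729) : phi M (2 ^ k) = M k := by
  unfold phi
  rw [Finset.sum_eq_single k]
  · simp
  · intro b _ hb
    rw [Nat.testBit_two_pow]
    simp [Ne.symm hb]
  · intro h; exact absurd (Finset.mem_range.mpr hk) h

lemma blt_dec (a b : ℕ) : Nat.blt a b = decide (a < b) := by
  rw [Bool.eq_iff_iff, Nat.blt_eq, decide_eq_true_iff]

def bz (b : Bool) : ZMod 2 := cond b 1 0

lemma bz_xor (x y : Bool) : bz (xor x y) = bz x + bz y := by
  cases x <;> cases y <;> rfl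

lemma bz_eq (p : Prop) [Decidable p] : bz (decide p) = if p then 1 else 0 := by
  by_cases h : p <;> simp [h, bz]

theorem cert_contra {T : List (List ℕ)} {care val : ℕ} {L : List ℕ}
    (hc : okCert T (care, val, L) = true) (h : Fin 9 → Fin 9 → Bool) (B : ℕ)
    (hB : B &&& care = val)
    (hh : ∀ a b : Fin 9, a < b →
      h a b = (B.testBit (tb T a b / 2) == (tb T a b % 2 == 0)))
    (hl : Lab h) : False := by
  obtain ⟨m, hm⟩ := hl
  simp only [okCert, Bool.and_eq_true] at hc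
  obtain ⟨⟨h1, h2⟩, h3⟩ := hc
  have h2' : L.foldr (fun n y => msk n ^^^ y) 0 = 0 := Nat.eq_of_beq_eq_true h2
  let M : ℕ → ZMod 2 := fun i => m (Fin.ofNat 9 (i / 81)) (Fin.ofNat 9 (i / 9)) (Fin.ofNat 9 i)
  have key : ∀ n, okQuad T care val n = true →
      bz (bet n) = phi M (msk n) := by
    intro n hn
    simp only [okQuad, Bool.and_eq_true, Bool.not_eq_true', Nat.blt_eq] at hn
    obtain ⟨⟨⟨⟨⟨⟨⟨e1, e2⟩, e3⟩, e4⟩, e5⟩, e6⟩, e7⟩, e8⟩ := hn
    have e3' : qa n ≠ qc n := fun h => by rw [h, Nat.beq_refl] at e3; exact absurd e3 (by decide)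
    have e4' : qa n ≠ qd n := fun h => by rw [h, Nat.beq_refl] at e4; exact absurd e4 (by decide)
    have e5' : qb n ≠ qc n := fun h => by rw [h, Nat.beq_refl] at e5; exact absurd e5 (by decide)
    have e6' : qb n ≠ qd n := fun h => by rw [h, Nat.beq_refl] at e6; exact absurd e6 (by decide)
    have b1 : qb n < 9 := Nat.mod_lt _ (by norm_num)
    have b2 : qc n < 9 := Nat.mod_lt _ (by norm_num)
    have b3 : qd n < 9 := Nat.mod_lt _ (by norm_num)
    have b0 : qa n < 9 := lt_trans e1 b1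
    unfold bet msk
    generalize qa n = a at *
    generalize qb n = b at *
    generalize qc n = c at *
    generalize qd n = d at *
    have hadj : ∀ x y : ℕ, ∀ (hx : x < 9) (hy : y < 9), x < y → forced T care val x y = true →
        h ⟨x, hx⟩ ⟨y, hy⟩ = true := by
      intro x y hx hy hxy hf
      rw [hh _ _ (show (⟨x, hx⟩ : Fin 9) < ⟨y, hy⟩ from hxy)]
      simp only [forced, Bool.and_eq_true] at hf
      obtain ⟨f1, f2⟩ := hf
      rw [← hB, Nat.testBit_and, f1, Bool.and_true] at f2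
      exact f2
    have hMM : ∀ x y z : ℕ, ∀ (hx : x < 9) (hy : y < 9) (hz : z < 9),
        phi M (2 ^ (81 * x + 9 * y + z)) = m ⟨x, hx⟩ ⟨y, hy⟩ ⟨z, hz⟩ := by
      intro x y z hx hy hz
      rw [phi_pow M _ (by omega)]
      simp only [M]
      have r1 : Fin.ofNat 9 ((81 * x + 9 * y + z) / 81) = ⟨x, hx⟩ := by
        apply Fin.ext; simp only [Fin.ofNat]; omega
      have r2 : Fin.ofNat 9 ((81 * x + 9 * y + z) / 9) = ⟨y, hy⟩ := by
        apply Fin.ext; simp only [Fin.ofNat]; omega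
      have r3 : Fin.ofNat 9 (81 * x + 9 * y + z) = ⟨z, hz⟩ := by
        apply Fin.ext; simp only [Fin.ofNat]; omega
      rw [r1, r2, r3]
    have hrel := hm ⟨a, b0⟩ ⟨b, b1⟩ ⟨c, b2⟩ ⟨d, b3⟩ e1 e2 (hadj a b b0 b1 e1 e7)
      (hadj c d b2 b3 e2 e8) (fun hh => e3' (congrArg Fin.val hh))
      (fun hh => e4' (congrArg Fin.val hh)) (fun hh => e5' (congrArg Fin.val hh))
      (fun hh => e6' (congrArg Fin.val hh))
    rw [phi_xor, phi_xor, phi_xor, hMM a b c b0 b1 b2, hMM a b d b0 b1 b3, hMM c d a b2 b3 b0,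
      hMM c d b b2 b3 b1]
    rw [← add_assoc, ← add_assoc, ← hrel]
    rw [bz_xor, blt_dec, blt_dec, blt_dec, blt_dec, ← Bool.decide_and, ← Bool.decide_and,
      bz_eq, bz_eq]
    simp only [beta, Fin.mk_lt_mk]
  have hsum : ∀ L' : List ℕ, L'.all (okQuad T care val) = true →
      bz (L'.foldr (fun n y => xor (bet n) y) false) =
        phi M (L'.foldr (fun n y => msk n ^^^ y) 0) := by
    intro L'
    induction L' with
    | nil => intro _; simp [phi_zero, bz]
    | cons n L' ih =>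
      intro hall
      simp only [List.all_cons, Bool.and_eq_true] at hall
      have i1 := ih hall.2
      have i2 := key n hall.1
      simp only [List.foldr_cons]
      rw [phi_xor, ← i1, ← i2, bz_xor]
  have := hsum L h1
  rw [h2', h3, phi_zero] at this
  exact absurd this (by decide)

end Pool.Agent.Q239.K9
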