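import Pool.Agent.Q239.K9.Planar
import Pool.Agent.Helper770.Straight

set_option autoImplicit false

namespace Pool.Agent.Q239.K9

open Pool.Agent.Helper770.Straight

lemma seg_cross {V : Type*} {P : V → ℂ} (h : GenPos P) {a b c d : V} (hab : a ≠ b) (hcd : c ≠ d)
    (n1 : ¬ (a = c ∧ b = d)) (n2 : ¬ (a = d ∧ b = c)) {s t : ℝ} (hs0 : 0 < s) (hs1 : s < 1)
    (ht0 : 0 < t) (ht1 : t < 1) (heq : seg (P a) (P b) s = seg (P c) (P d) t) :
    ori (P a) (P b) (P c) * ori (P a) (P b) (P d) < 0 ∧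
      ori (P c) (P d) (P a) * ori (P c) (P d) (P b) < 0 := by
  have o1 := ori_seg heq
  have o2 := ori_seg heq.symm
  have hac : a ≠ c := by
    intro hh
    rw [← hh, ori_self₁, mul_zero, zero_add] at o1
    rcases mul_eq_zero.mp o1 with h1 | h1
    · exact ht0.ne' h1
    · refine h.gen a b d hab ?_ ?_ h1
      · rw [hh]; exact hcd.symm
      · rintro h2; exact n1 ⟨hh, h2.symm⟩
  have had : a ≠ d := by
    intro hh
    rw [← hh, ori_self₁, mul_zero, add_zero] at o1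
    rcases mul_eq_zero.mp o1 with h1 | h1
    · linarith
    · refine h.gen a b c hab ?_ ?_ h1
      · rw [hh]; exact hcd
      · rintro h2; exact n2 ⟨hh, h2.symm⟩
  have hbc : b ≠ c := by
    intro hh
    rw [← hh, ori_self₂, mul_zero, zero_add] at o1
    rcases mul_eq_zero.mp o1 with h1 | h1
    · exact ht0.ne' h1
    · refine h.gen a b d hab had.symm ?_ h1
      rw [hh]; exact hcd.symm
  have hbd : b ≠ d := by
    intro hh
    rw [← hh, ori_self₂, mul_zero, add_zero] at o1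
    rcases mul_eq_zero.mp o1 with h1 | h1
    · linarith
    · refine h.gen a b c hab hac.symm ?_ h1
      rw [hh]; exact hcd
  refine ⟨?_, ?_⟩
  · have n1 := h.gen a b c hab hac.symm hbc.symm
    have e1 : t * (ori (P a) (P b) (P c) * ori (P a) (P b) (P d)) =
        -((1 - t) * (ori (P a) (P b) (P c)) ^ 2) := by
      linear_combination (ori (P a) (P b) (P c)) * o1
    have p1 : 0 < (1 - t) * (ori (P a) (P b) (P c)) ^ 2 := by
      have : 0 < (ori (P a) (P b) (P c)) ^ 2 := by positivity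
      have h1t : 0 < 1 - t := by linarith
      positivity
    by_contra hc
    push Not at hc
    have := mul_nonneg ht0.le hc
    linarith
  · have n1 := h.gen c d a hcd hac had
    have e1 : s * (ori (P c) (P d) (P a) * ori (P c) (P d) (P b)) =
        -((1 - s) * (ori (P c) (P d) (P a)) ^ 2) := by
      linear_combination (ori (P c) (P d) (P a)) * o2
    have p1 : 0 < (1 - s) * (ori (P c) (P d) (P a)) ^ 2 := by
      have : 0 < (ori (P c) (P d) (P a)) ^ 2 := by positivity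
      have h1t : 0 < 1 - s := by linarith
      positivity
    by_contra hc
    push Not at hc
    have := mul_nonneg hs0.le hc
    linarith

lemma seg_unique {a b c d : ℂ} (hne : ori c d a * ori c d b < 0) {s t s' t' : ℝ}
    (h1 : seg a b s = seg c d t) (h2 : seg a b s' = seg c d t') : s = s' := by
  have a1 := ori_seg h1.symm
  have a2 := ori_seg h2.symm
  have hAB : ori c d a ≠ ori c d b := by
    intro hh; rw [hh] at hne; nlinarith [mul_self_nonneg (ori c d b)]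
  have : (s - s') * (ori c d b - ori c d a) = 0 := by linarith
  rcases mul_eq_zero.mp this with hh | hh
  · linarith
  · exact absurd (by linarith) hAB

def Xc : Fin 2 → Fin 9 → ℤ := ![![1, 9, 11, 10, 2, 6, 8, 4, 3], ![3, 4, 5, 4, 9, 1, 3, 1, 0]]
def Yc : Fin 2 → Fin 9 → ℤ := ![![0, 8, 8, 0, 2, 3, 3, 10, 11], ![5, 1, 2, 11, 0, 1, 6, 2, 5]]

def col : Fin 9 → Fin 9 → Fin 2 :=
  ![![0, 0, 1, 0, 0, 0, 1, 1, 0], ![0, 0, 1, 0, 1, 1, 0, 0, 0], ![1, 1, 0, 0, 1, 1, 1, 1, 0],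
    ![0, 0, 0, 0, 1, 0, 0, 1, 1], ![0, 1, 1, 1, 0, 1, 1, 0, 0], ![0, 1, 1, 0, 1, 0, 0, 1, 1],
    ![1, 0, 1, 0, 1, 0, 0, 1, 1], ![1, 0, 1, 1, 0, 1, 1, 0, 0], ![0, 0, 0, 1, 0, 1, 1, 0, 0]]

def oz (i : Fin 2) (a b c : Fin 9) : ℤ :=
  (Xc i b - Xc i a) * (Yc i c - Yc i a) - (Yc i b - Yc i a) * (Xc i c - Xc i a)

noncomputable def PP (i : Fin 2) (a : Fin 9) : ℂ := ⟨Xc i a, Yc i a⟩

lemma ori_PP (i : Fin 2) (a b c : Fin 9) : ori (PP i a) (PP i b) (PP i c) = (oz i a b c : ℝ) := by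
  simp [ori, PP, oz]

lemma col_symm : ∀ a b : Fin 9, col a b = col b a := by decide

lemma oz_ne : ∀ (i : Fin 2) (a b c : Fin 9), a ≠ b → c ≠ a → c ≠ b → oz i a b c ≠ 0 := by
  decide +kernel

lemma PP_genPos (i : Fin 2) : GenPos (PP i) where
  inj := by
    intro a b hab
    have hx' : ((Xc i a : ℤ) : ℝ) = Xc i b := congrArg Complex.re hab
    have hy' : ((Yc i a : ℤ) : ℝ) = Yc i b := congrArg Complex.im hab
    have hx : Xc i a = Xc i b := by exact_mod_cast hx'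
    have hy : Yc i a = Yc i b := by exact_mod_cast hy'
    have : ∀ (i : Fin 2) (a b : Fin 9), Xc i a = Xc i b → Yc i a = Yc i b → a = b := by
      decide +kernel
    exact this i a b hx hy
  gen := by
    intro a b c h1 h2 h3
    rw [ori_PP]
    exact_mod_cast oz_ne i a b c h1 h2 h3

/-- The crossing tuples of the frozen statement for `G = K₉`. -/
def XS (c : Fin 9 → Fin 9 → Fin 2) (γ : Fin 2 → Fin 9 → Fin 9 → ℝ → ℂ) :
    Set (Fin 2 × Fin 9 × Fin 9 × Fin 9 × Fin 9 × ℂ) :=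
  {x : Fin 2 × Fin 9 × Fin 9 × Fin 9 × Fin 9 × ℂ |
            (⊤ : SimpleGraph (Fin 9)).Adj x.2.1 x.2.2.1 ∧
            (⊤ : SimpleGraph (Fin 9)).Adj x.2.2.2.1 x.2.2.2.2.1 ∧
            c x.2.1 x.2.2.1 = x.1 ∧ c x.2.2.2.1 x.2.2.2.2.1 = x.1 ∧
            ¬ (x.2.1 = x.2.2.2.1 ∧ x.2.2.1 = x.2.2.2.2.1) ∧
            ¬ (x.2.1 = x.2.2.2.2.1 ∧ x.2.2.1 = x.2.2.2.1) ∧
            (∃ t : ℝ, 0 < t ∧ t < 1 ∧ γ x.1 x.2.1 x.2.2.1 t = x.2.2.2.2.2) ∧
            (∃ t : ℝ, 0 < t ∧ t < 1 ∧ γ x.1 x.2.2.2.1 x.2.2.2.2.1 t = x.2.2.2.2.2)}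

noncomputable def gam (i : Fin 2) (u v : Fin 9) : ℝ → ℂ := seg (PP i u) (PP i v)

def TT : Finset (Fin 2 × Fin 9 × Fin 9 × Fin 9 × Fin 9) :=
  {(1, 3, 7, 6, 8), (1, 7, 3, 6, 8), (1, 3, 7, 8, 6), (1, 7, 3, 8, 6),
   (1, 6, 8, 3, 7), (1, 8, 6, 3, 7), (1, 6, 8, 7, 3), (1, 8, 6, 7, 3)}

lemma mem_TT : ∀ (i : Fin 2) (u v w z : Fin 9), u ≠ v → w ≠ z → col u v = i → col w z = i →
    ¬ (u = w ∧ v = z) → ¬ (u = z ∧ v = w) → oz i u v w * oz i u v z < 0 →
    oz i w z u * oz i w z v < 0 → (i, u, v, w, z) ∈ TT := by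
  decide +kernel

def proj5 (x : Fin 2 × Fin 9 × Fin 9 × Fin 9 × Fin 9 × ℂ) :
    Fin 2 × Fin 9 × Fin 9 × Fin 9 × Fin 9 := (x.1, x.2.1, x.2.2.1, x.2.2.2.1, x.2.2.2.2.1)

lemma gam_cross {x : Fin 2 × Fin 9 × Fin 9 × Fin 9 × Fin 9 × ℂ} (hx : x ∈ XS col gam) :
    oz x.1 x.2.1 x.2.2.1 x.2.2.2.1 * oz x.1 x.2.1 x.2.2.1 x.2.2.2.2.1 < 0 ∧
      oz x.1 x.2.2.2.1 x.2.2.2.2.1 x.2.1 * oz x.1 x.2.2.2.1 x.2.2.2.2.1 x.2.2.1 < 0 := by
  obtain ⟨h1, h2, h3, h4, h5, h6, ⟨s, hs0, hs1, hs⟩, ⟨t, ht0, ht1, ht⟩⟩ := hx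
  have := seg_cross (PP_genPos x.1) h1 h2 h5 h6 hs0 hs1 ht0 ht1 (hs.trans ht.symm)
  rw [ori_PP, ori_PP, ori_PP, ori_PP] at this
  exact_mod_cast this

lemma XS_small : (XS col gam).Finite ∧ (XS col gam).ncard ≤ 8 := by
  have hsub : proj5 '' XS col gam ⊆ (TT : Set _) := by
    rintro _ ⟨x, hx, rfl⟩
    have hc := gam_cross hx
    obtain ⟨h1, h2, h3, h4, h5, h6, -, -⟩ := hx
    exact mem_TT _ _ _ _ _ h1 h2 h3 h4 h5 h6 hc.1 hc.2
  have hinj : Set.InjOn proj5 (XS col gam) := by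
    intro x hx y hy hxy
    have hc := gam_cross hx
    obtain ⟨-, -, -, -, -, -, ⟨s, hs0, hs1, hs⟩, ⟨t, ht0, ht1, ht⟩⟩ := hx
    obtain ⟨-, -, -, -, -, -, ⟨s', hs0', hs1', hs'⟩, ⟨t', ht0', ht1', ht'⟩⟩ := hy
    obtain ⟨i, u, v, w, z, q⟩ := x
    obtain ⟨i', u', v', w', z', q'⟩ := y
    simp only [proj5, Prod.mk.injEq] at hxy
    obtain ⟨rfl, rfl, rfl, rfl, rfl⟩ := hxy
    simp only at hs ht hs' ht' hc
    have hu : s = s' := by
      refine seg_unique (c := PP i w) (d := PP i z) ?_ (hs.trans ht.symm) (hs'.trans ht'.symm)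
      rw [ori_PP, ori_PP]
      exact_mod_cast hc.2
    subst hu
    rw [← hs, ← hs']
  have hfin : (XS col gam).Finite :=
    Set.Finite.of_finite_image ((Finset.finite_toSet TT).subset hsub) hinj
  refine ⟨hfin, ?_⟩
  rw [← hinj.ncard_image]
  refine (Set.ncard_le_ncard hsub (Finset.finite_toSet TT)).trans ?_
  rw [Set.ncard_coe_finset]
  decide

/-- If both planes have a crossing of two disjoint edges, there are at least 16 tuples. -/
lemma XS_large {c : Fin 9 → Fin 9 → Fin 2} {γ : Fin 2 → Fin 9 → Fin 9 → ℝ → ℂ}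
    (hsym : ∀ u v : Fin 9, u ≠ v → c u v = c v u)
    (hrev : ∀ i u v, u ≠ v → c u v = i → ∀ t : ℝ, 0 ≤ t → t ≤ 1 → γ i v u t = γ i u v (1 - t))
    (hfin : (XS c γ).Finite)
    (h : ∀ i : Fin 2, ∃ u v w z : Fin 9, u ≠ v ∧ w ≠ z ∧ u ≠ w ∧ u ≠ z ∧ v ≠ w ∧ v ≠ z ∧
      c u v = i ∧ c w z = i ∧ ∃ s t : ℝ, 0 < s ∧ s < 1 ∧ 0 < t ∧ t < 1 ∧ γ i u v s = γ i w z t) :
    16 ≤ (XS c γ).ncard := by
  choose u v w z huv hwz huw huz hvw hvz hc1 hc2 s t hs0 hs1 ht0 ht1 heq using h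
  let e1 : Fin 2 → Bool → Fin 9 × Fin 9 := fun i b => bif b then (v i, u i) else (u i, v i)
  let e2 : Fin 2 → Bool → Fin 9 × Fin 9 := fun i b => bif b then (z i, w i) else (w i, z i)
  let F : Fin 2 × Bool × Bool × Bool → Fin 2 × Fin 9 × Fin 9 × Fin 9 × Fin 9 × ℂ := fun x =>
    bif x.2.2.2 then (x.1, (e2 x.1 x.2.2.1).1, (e2 x.1 x.2.2.1).2, (e1 x.1 x.2.1).1,
      (e1 x.1 x.2.1).2, γ x.1 (u x.1) (v x.1) (s x.1))
    else (x.1, (e1 x.1 x.2.1).1, (e1 x.1 x.2.1).2, (e2 x.1 x.2.2.1).1,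
      (e2 x.1 x.2.2.1).2, γ x.1 (u x.1) (v x.1) (s x.1))
  have hinj : Function.Injective F := by
    rintro ⟨i, b1, b2, b3⟩ ⟨j, c1, c2, c3⟩ hF
    have hij : i = j := by
      have := congrArg Prod.fst hF
      cases b3 <;> cases c3 <;> exact this
    subst hij
    have n1 := huv i
    have n2 := hwz i
    have n3 := huw i
    have n4 := huz i
    have n5 := hvw i
    have n6 := hvz i
    cases b1 <;> cases b2 <;> cases b3 <;> cases c1 <;> cases c2 <;> cases c3 <;>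
      simp_all [F, e1, e2, n1.symm, n2.symm, n3.symm, n4.symm, n5.symm, n6.symm]
  have hmem : ∀ x, F x ∈ XS c γ := by
    rintro ⟨i, b1, b2, b3⟩
    have n1 := huv i
    have n2 := hwz i
    have n3 := huw i
    have n4 := huz i
    have n5 := hvw i
    have n6 := hvz i
    have m1 : ∀ b, c (e1 i b).1 (e1 i b).2 = i := by
      intro b; cases b
      · exact hc1 i
      · exact (hsym _ _ n1.symm).trans (hc1 i)
    have m2 : ∀ b, c (e2 i b).1 (e2 i b).2 = i := by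
      intro b; cases b
      · exact hc2 i
      · exact (hsym _ _ n2.symm).trans (hc2 i)
    have p1 : ∀ b, (e1 i b).1 ≠ (e1 i b).2 := by
      intro b; cases b
      · exact n1
      · exact n1.symm
    have p2 : ∀ b, (e2 i b).1 ≠ (e2 i b).2 := by
      intro b; cases b
      · exact n2
      · exact n2.symm
    have q1 : ∀ b, ∃ t : ℝ, 0 < t ∧ t < 1 ∧ γ i (e1 i b).1 (e1 i b).2 t = γ i (u i) (v i) (s i) := by
      intro b; cases b
      · exact ⟨s i, hs0 i, hs1 i, rfl⟩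
      · refine ⟨1 - s i, by linarith [hs1 i], by linarith [hs0 i], ?_⟩
        change γ i (v i) (u i) (1 - s i) = _
        rw [hrev i (u i) (v i) n1 (hc1 i) _ (by linarith [hs1 i]) (by linarith [hs0 i])]
        congr 1; ring
    have q2 : ∀ b, ∃ t : ℝ, 0 < t ∧ t < 1 ∧ γ i (e2 i b).1 (e2 i b).2 t = γ i (u i) (v i) (s i) := by
      intro b; cases b
      · exact ⟨t i, ht0 i, ht1 i, (heq i).symm⟩
      · refine ⟨1 - t i, by linarith [ht1 i], by linarith [ht0 i], ?_⟩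
        change γ i (z i) (w i) (1 - t i) = _
        rw [hrev i (w i) (z i) n2 (hc2 i) _ (by linarith [ht1 i]) (by linarith [ht0 i]), heq i]
        congr 1; ring
    have r1 : ∀ b b', (e1 i b).1 ≠ (e2 i b').1 := by
      intro b b'; cases b <;> cases b' <;> assumption
    have r2 : ∀ b b', (e1 i b).1 ≠ (e2 i b').2 := by
      intro b b'; cases b <;> cases b' <;> assumption
    cases b3
    · exact ⟨p1 b1, p2 b2, m1 b1, m2 b2, fun h => r1 b1 b2 h.1, fun h => r2 b1 b2 h.1, q1 b1, q2 b2⟩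
    · exact ⟨p2 b2, p1 b1, m2 b2, m1 b1, fun h => r1 b1 b2 h.1.symm, fun h => r2 b1 b2 h.2.symm,
        q2 b2, q1 b1⟩
  have h16 : (Set.range F).ncard = 16 := by
    rw [← Set.image_univ, Set.ncard_image_of_injective _ hinj, Set.ncard_univ,
      Nat.card_eq_fintype_card]
    rfl
  rw [← h16]
  exact Set.ncard_le_ncard (by rintro _ ⟨x, rfl⟩; exact hmem x) hfin

end Pool.Agent.Q239.K9
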