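import Pool.Agent.Q239.K9.SC

set_option autoImplicit false

namespace Pool.Agent.Q239.K9

open Equiv Pool.Agent.Helper770.VanKampen

/-- `H` has a drawing in the plane in which no two vertex-disjoint edges meet. -/
def Pl (H : SimpleGraph (Fin 9)) : Prop :=
  ∃ (p : Fin 9 → ℂ) (γ : Fin 9 → Fin 9 → ℝ → ℂ), Function.Injective p ∧
    (∀ u v, H.Adj u v → ContinuousOn (γ u v) (Set.Icc 0 1) ∧ γ u v 0 = p u ∧ γ u v 1 = p v ∧
      ∀ t : ℝ, 0 < t → t < 1 → ∀ w, γ u v t ≠ p w) ∧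
    (∀ u v w z, H.Adj u v → H.Adj w z → u ≠ w → u ≠ z → v ≠ w → v ≠ z →
      ∀ s t : ℝ, 0 < s → s < 1 → 0 < t → t < 1 → γ u v s ≠ γ w z t)

lemma Pl.iso {H H' : SimpleGraph (Fin 9)} (e : H' ≃g H) (h : Pl H) : Pl H' := by
  obtain ⟨p, γ, h1, h2, h3⟩ := h
  refine ⟨fun u => p (e u), fun u v => γ (e u) (e v), h1.comp e.injective, ?_, ?_⟩
  · intro u v huv
    obtain ⟨a, b, c, d⟩ := h2 (e u) (e v) (e.map_rel_iff.mpr huv)
    exact ⟨a, b, c, fun t ht0 ht1 w => d t ht0 ht1 (e w)⟩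
  · intro u v w z huv hwz a b c d
    exact h3 _ _ _ _ (e.map_rel_iff.mpr huv) (e.map_rel_iff.mpr hwz) (fun h => a (e.injective h))
      (fun h => b (e.injective h)) (fun h => c (e.injective h)) (fun h => d (e.injective h))

lemma Pl.lab {H : SimpleGraph (Fin 9)} (h : Pl H) (π : Perm (Fin 9)) (f : Fin 9 → Fin 9 → Bool)
    (hf : ∀ a b, a < b → f a b = true → H.Adj (π a) (π b)) : Lab f := by
  obtain ⟨p, γ, h1, h2, h3⟩ := h
  let κ : ℝ → ℝ := fun t => max 0 (min t 1)
  have hκ : ∀ t, κ t ∈ Set.Icc (0 : ℝ) 1 := fun t =>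
    ⟨le_max_left _ _, max_le (by norm_num) (min_le_right _ _)⟩
  have hκ3 : ∀ t, κ t = 0 ∨ κ t = 1 ∨ (0 < κ t ∧ κ t < 1) := by
    intro t
    rcases (hκ t).1.eq_or_lt with h | h
    · exact Or.inl h.symm
    · rcases (hκ t).2.eq_or_lt with h' | h'
      · exact Or.inr (Or.inl h')
      · exact Or.inr (Or.inr ⟨h, h'⟩)
  have hinj : Function.Injective (fun a => p (π a)) := h1.comp π.injective
  obtain ⟨m, hm⟩ := exists_labels (fun a => p (π a)) hinj (fun a b => f a b = true)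
    (fun a b t => γ (π a) (π b) (κ t))
    (fun a b hab hE => (h2 _ _ (hf a b hab hE)).1.comp_continuous (by fun_prop) hκ)
    (fun a b hab hE => by
      have : κ 0 = 0 := by simp [κ]
      rw [this]; exact (h2 _ _ (hf a b hab hE)).2.1)
    (fun a b hab hE => by
      have : κ 1 = 1 := by simp [κ]
      rw [this]; exact (h2 _ _ (hf a b hab hE)).2.2.1)
    (fun a b c hab hE hca hcb t => by
      obtain ⟨-, a0, a1, a2⟩ := h2 _ _ (hf a b hab hE)
      rcases hκ3 t with h | h | h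
      · rw [h, a0]; exact fun h' => hca (hinj h').symm
      · rw [h, a1]; exact fun h' => hcb (hinj h').symm
      · exact a2 _ h.1 h.2 _)
  refine ⟨m, fun a b c d hab hcd hE hE' h1' h2' h3' h4' => hm a b c d hab hcd hE hE' h1' h2' h3' h4'
    fun s t => ?_⟩
  obtain ⟨-, a0, a1, a2⟩ := h2 _ _ (hf a b hab hE)
  obtain ⟨-, b0, b1, b2⟩ := h2 _ _ (hf c d hcd hE')
  rcases hκ3 s with h | h | h
  · rcases hκ3 t with h' | h' | h'
    · rw [h, h', a0, b0]; exact fun h'' => h1' (hinj h'')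
    · rw [h, h', a0, b1]; exact fun h'' => h2' (hinj h'')
    · rw [h, a0]; exact (b2 _ h'.1 h'.2 _).symm
  · rcases hκ3 t with h' | h' | h'
    · rw [h, h', a1, b0]; exact fun h'' => h3' (hinj h'')
    · rw [h, h', a1, b1]; exact fun h'' => h4' (hinj h'')
    · rw [h, a1]; exact (b2 _ h'.1 h'.2 _).symm
  · rcases hκ3 t with h' | h' | h'
    · rw [h', b0]; exact a2 _ h.1 h.2 _
    · rw [h', b1]; exact a2 _ h.1 h.2 _
    · exact h3 _ _ _ _ (hf a b hab hE) (hf c d hcd hE') (fun h => h1' (π.injective h))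
        (fun h => h2' (π.injective h)) (fun h => h3' (π.injective h))
        (fun h => h4' (π.injective h)) _ _ h.1 h.2 h'.1 h'.2

/-- No self-complementary graph on nine vertices is planar. -/
theorem no_sc (H : SimpleGraph (Fin 9)) (σ : Perm (Fin 9)) (hσ : IsAnti H σ)
    (h1 : Pl H) (h2 : Pl Hᶜ) : False := by
  classical
  obtain ⟨π, hπ⟩ := conj_anti hσ
  have l1 : Lab (fun a b => decide (H.Adj (π a) (π b))) :=
    h1.lab π _ fun a b _ h => of_decide_eq_true h
  have l2 : Lab (fun a b => !decide (H.Adj (π a) (π b))) :=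
    h2.lab π _ fun a b hab h => by
      rw [SimpleGraph.compl_adj]
      refine ⟨fun h' => hab.ne (π.injective h'), ?_⟩
      simpa using h
  have hsym : ∀ a b, decide (H.Adj (π a) (π b)) = decide (H.Adj (π b) (π a)) := by
    intro a b; simp only [H.adj_comm]
  rcases hπ with hπ | hπ
  · refine anti8 _ hsym (fun a b hab => ?_) l1 l2
    rw [← hπ, ← hπ, Bool.eq_iff_iff, decide_eq_true_iff, hσ _ _ (fun h => hab (π.injective h))]
    simp
  · refine anti44 _ hsym (fun a b hab => ?_) l1 l2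
    rw [← hπ, ← hπ, Bool.eq_iff_iff, decide_eq_true_iff, hσ _ _ (fun h => hab (π.injective h))]
    simp

end Pool.Agent.Q239.K9
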