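import Pool.Agent.Q239.K9.Anti

set_option autoImplicit false

namespace Pool.Agent.Q239.K9

open Equiv Equiv.Perm

def P8 : Perm (Fin 9) where
  toFun := s8
  invFun := ![7,0,1,2,3,4,5,6,8]
  left_inv := by decide
  right_inv := by decide

def P44 : Perm (Fin 9) where
  toFun := s44
  invFun := ![3,0,1,2,7,4,5,6,8]
  left_inv := by decide
  right_inv := by decide

theorem cyc8 : P8.cycleType = {8} := by decide +kernel
theorem cyc44 : P44.cycleType = {4, 4} := by decide +kernel

/-- `σ` exchanges adjacency and non-adjacency. -/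
def IsAnti (H : SimpleGraph (Fin 9)) (σ : Perm (Fin 9)) : Prop :=
  ∀ a b, a ≠ b → (H.Adj (σ a) (σ b) ↔ ¬ H.Adj a b)

lemma anti_pow {H : SimpleGraph (Fin 9)} {σ : Perm (Fin 9)} (hσ : IsAnti H σ) (a b : Fin 9)
    (hab : a ≠ b) (k : ℕ) :
    H.Adj ((σ ^ k) a) ((σ ^ k) b) ↔ (if k % 2 = 0 then H.Adj a b else ¬ H.Adj a b) := by
  induction k with
  | zero => simp
  | succ k ih =>
    rw [pow_succ', Perm.mul_apply, Perm.mul_apply, hσ _ _ (fun hh => hab ((σ ^ k).injective hh)),
      ih]
    rcases Nat.mod_two_eq_zero_or_one k with hk | hk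
    · have : (k + 1) % 2 = 1 := by omega
      simp [hk, this]
    · have : (k + 1) % 2 = 0 := by omega
      simp [hk, this]

lemma four_dvd {H : SimpleGraph (Fin 9)} {σ : Perm (Fin 9)} (hσ : IsAnti H σ) {n : ℕ}
    (hn : n ∈ σ.cycleType) : 4 ∣ n := by
  obtain ⟨c, τ, hct, hdis, hcyc, hcard⟩ := mem_cycleType_iff.mp hn
  obtain ⟨x, hx, -⟩ := id hcyc
  have hτ : τ x = x := (hdis x).resolve_left hx
  have hτk : ∀ k : ℕ, (τ ^ k) x = x := fun k => pow_apply_eq_self_of_apply_eq_self hτ k
  have hpow : ∀ k : ℕ, (σ ^ k) x = (c ^ k) x := by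
    intro k
    rw [hct, hdis.commute.mul_pow, Perm.mul_apply, hτk]
  have hord : orderOf c = n := by rw [hcyc.orderOf, hcard]
  have hcn : (c ^ n) x = x := by rw [← hord, pow_orderOf_eq_one]; rfl
  have hσn : (σ ^ n) x = x := by rw [hpow, hcn]
  have hσx : σ x ≠ x := by
    have := hpow 1
    simp only [pow_one] at this
    rw [this]; exact hx
  -- parity
  rcases Nat.mod_two_eq_zero_or_one n with h2 | h2
  · -- even
    obtain ⟨m, hm⟩ : ∃ m, n = 2 * m := ⟨n / 2, by omega⟩
    have hn2 : 2 ≤ n := two_le_of_mem_cycleType hn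
    have hmx : (σ ^ m) x ≠ x := by
      intro hh
      rw [hpow] at hh
      have h1 : c ^ m = 1 := (hcyc.pow_eq_one_iff' hx).mpr hh
      have h3 := orderOf_dvd_of_pow_eq_one h1
      rw [hord] at h3
      have := Nat.le_of_dvd (by omega) h3
      omega
    have hback : (σ ^ m) ((σ ^ m) x) = x := by
      rw [← Perm.mul_apply, ← pow_add, ← two_mul, ← hm, hσn]
    have hA := anti_pow hσ x ((σ ^ m) x) hmx.symm m
    rw [hback] at hA
    rcases Nat.mod_two_eq_zero_or_one m with h4 | h4
    · omega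
    · rw [if_neg (by omega), H.adj_comm] at hA
      exact absurd hA (by tauto)
  · have hA := anti_pow hσ x (σ x) hσx.symm n
    have : (σ ^ n) (σ x) = σ x := by
      rw [← Perm.mul_apply, (Commute.refl σ).pow_left n |>.eq, Perm.mul_apply, hσn]
    rw [hσn, this, if_neg (by omega)] at hA
    exact absurd hA (by tauto)

lemma support_card {H : SimpleGraph (Fin 9)} {σ : Perm (Fin 9)} (hσ : IsAnti H σ) :
    8 ≤ σ.support.card := by
  by_contra hlt
  push Not at hlt
  have hcomp : 1 < (σ.supportᶜ).card := by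
    rw [Finset.card_compl, Fintype.card_fin]; omega
  obtain ⟨a, ha, b, hb, hab⟩ := Finset.one_lt_card.mp hcomp
  rw [Finset.mem_compl, notMem_support] at ha hb
  have := hσ a b hab
  rw [ha, hb] at this
  exact absurd this (by tauto)

theorem cycleType_anti {H : SimpleGraph (Fin 9)} {σ : Perm (Fin 9)} (hσ : IsAnti H σ) :
    σ.cycleType = {8} ∨ σ.cycleType = {4, 4} := by
  have h4 : ∀ n ∈ σ.cycleType, 4 ∣ n := fun n hn => four_dvd hσ hn
  have hs : σ.cycleType.sum = σ.support.card := sum_cycleType σ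
  have hle : σ.support.card ≤ 9 := by
    have := Finset.card_le_univ σ.support
    rwa [Fintype.card_fin] at this
  have hge := support_card hσ
  have hd : 4 ∣ σ.cycleType.sum := Multiset.dvd_sum h4
  have hsum : σ.cycleType.sum = 8 := by omega
  by_cases h8 : 8 ∈ σ.cycleType
  · left
    obtain ⟨t, ht⟩ := Multiset.exists_cons_of_mem h8
    rw [ht, Multiset.sum_cons] at hsum
    have ht0 : t.sum = 0 := by omega
    have : t = 0 := by
      rw [Multiset.eq_zero_iff_forall_notMem]
      intro n hn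
      have h1 : n ∈ σ.cycleType := by rw [ht]; exact Multiset.mem_cons_of_mem hn
      have h2 := two_le_of_mem_cycleType h1
      have h3 := Multiset.single_le_sum (fun _ _ => Nat.zero_le _) n hn
      omega
    rw [ht, this]; rfl
  · right
    have hall : ∀ n ∈ σ.cycleType, n = 4 := by
      intro n hn
      have h2 := two_le_of_mem_cycleType hn
      have h3 := Multiset.single_le_sum (fun _ _ => Nat.zero_le _) n hn
      have h5 := h4 n hn
      have h6 : n ≠ 8 := fun h => h8 (h ▸ hn)
      rw [hsum] at h3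
      omega
    have hrep := Multiset.eq_replicate_card.mpr hall
    rw [hrep, Multiset.sum_replicate, smul_eq_mul] at hsum
    have : Multiset.card σ.cycleType = 2 := by omega
    rw [hrep, this]; rfl

theorem conj_anti {H : SimpleGraph (Fin 9)} {σ : Perm (Fin 9)} (hσ : IsAnti H σ) :
    ∃ π : Perm (Fin 9), (∀ x, σ (π x) = π (s8 x)) ∨ (∀ x, σ (π x) = π (s44 x)) := by
  rcases cycleType_anti hσ with h | h
  · have hc : IsConj P8 σ := isConj_iff_cycleType_eq.mpr (by rw [cyc8, h])
    obtain ⟨π, hπ⟩ := isConj_iff.mp hc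
    refine ⟨π, Or.inl fun x => ?_⟩
    rw [← hπ]; simp only [Perm.mul_apply]; rw [show π⁻¹ (π x) = x from π.symm_apply_apply x]; rfl
  · have hc : IsConj P44 σ := isConj_iff_cycleType_eq.mpr (by rw [cyc44, h])
    obtain ⟨π, hπ⟩ := isConj_iff.mp hc
    refine ⟨π, Or.inr fun x => ?_⟩
    rw [← hπ]; simp only [Perm.mul_apply]; rw [show π⁻¹ (π x) = x from π.symm_apply_apply x]; rfl

end Pool.Agent.Q239.K9
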